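import Pool.Agent.SymZF.Defs
import Pool.Agent.SymZF.Sound
import Pool.Agent.SymZF.Final

/-!
MP_5f54a2_lc, Q1: there is a model of ZF in which the compactness principle for 2-colourings
holds and the compactness principle for systems of linear equations `x + y + z = c` over `𝔽₂`
fails.
-/

namespace Pool.Agent.Results.MP_5f54a2_lc.ModelK2NotLin

open Pool.Agent.SymZF

theorem result : ∃ (M : Type) (E : M → M → Prop), ZF E ∧ CompactK2 E ∧ ¬ CompactLin E :=
  Final_proof

end Pool.Agent.Results.MP_5f54a2_lc.ModelK2NotLin
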